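import Pool.Agent.Q264.LAL.Core
import Pool.Agent.Y996.RK.Walecki

/-!
# Inner graphs of large girth, and complete inner graphs
-/

set_option autoImplicit false

namespace Pool.Agent.Q264.LAL

open SimpleGraph H931R3.LA Finset Pool.Agent.W111.LAR

open Classical in
theorem girth_la {V : Type} [Finite V] [Nonempty V] (G : SimpleGraph V) (r m d t g : ℕ)
    (hr : 0 < r) (hm : 0 < m) (hg : 0 < g) (hreg : ∀ v, (G.neighborSet v).ncard = r)
    (hpar : Even r ∨ Even m)
    (hcyc : ∀ (v : V) (c : G.Walk v v), c.IsCycle → 2 * d < c.length)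
    (H : V → SimpleGraph (Fin m)) (hH : ∀ v y, ((H v).neighborSet y).ncard = 2 * t)
    (hHg : ∀ v y (c : (H v).Walk y y), c.IsCycle → g ≤ c.length)
    (hload : (2 * t : ℝ) / g +
      (r : ℝ) / moore (if Even r then min (2 * m) r else min m r) d ≤ 1) :
    la (subst G H) = (r * m + 2 * t + 2) / 2 := by
  choose F hF1 hF2 using fun v => Pool.Agent.Y423.LA.two_factors (H v) t (hH v)
  have h1 := subst_la G r m d t hr hm hreg hpar hcyc F hF1
    (fun v y => by rw [hF2 v]; exact hH v y) (fun v y => by
      refine le_trans (add_le_add_left (?_ : _ ≤ (2 * t : ℝ) / g) _) hload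
      have hgR : (0 : ℝ) < g := by exact_mod_cast hg
      refine le_trans (sum_le_sum (g := fun _ => (2 : ℝ) / g) fun i _ => ?_) ?_
      · have hc : Cyc (F v i) y := fun w _ => hF1 v i w
        obtain ⟨w, c, hc1, hc2⟩ := exists_cycle hc
        have hle : F v i ≤ H v := (le_iSup (F v) i).trans (hF2 v).le
        have h2 := hHg v w (c.mapLe hle) (hc1.mapLe hle)
        rw [Walk.length_mapLe] at h2
        have h3 : g ≤ {z | (F v i).Reachable y z}.ncard := h2.trans hc2
        exact div_le_div_of_nonneg_left (by norm_num : (0 : ℝ) ≤ 2) hgR (by exact_mod_cast h3)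
      · rw [sum_const, card_univ, Fintype.card_fin, nsmul_eq_mul]
        refine le_of_eq ?_
        ring)
  rw [← h1]
  congr 1
  congr 1
  funext v
  exact (hF2 v).symm

/-- The graph of a Hamilton cycle. -/
theorem ham_graph {m : ℕ} {G : SimpleGraph (Fin m)} {a : Fin m} (c : G.Walk a a)
    (hc : c.IsHamiltonianCycle) :
    (∀ x, ((H568R3.wg c).neighborSet x).ncard = 2) ∧ ∀ x y, (H568R3.wg c).Reachable x y := by
  have hadj : ∀ x y, (H568R3.wg c).Adj x y ↔ s(x, y) ∈ c.edges := by
    intro x y
    show (SimpleGraph.fromEdgeSet {e | e ∈ c.edges}).Adj x y ↔ _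
    rw [SimpleGraph.fromEdgeSet_adj]
    refine ⟨fun h => h.1, fun h => ⟨h, fun h' => ?_⟩⟩
    subst h'
    exact G.loopless.irrefl _ (c.adj_of_mem_edges h)
  constructor
  · intro x
    rw [← hc.isCycle.ncard_neighborSet_toSubgraph_eq_two (hc.mem_support x)]
    congr 1
    ext y
    rw [mem_neighborSet, hadj, Subgraph.mem_neighborSet, Walk.adj_toSubgraph_iff_mem_edges]
  · have key : ∀ x, (H568R3.wg c).Reachable a x := by
      intro x
      have hE : ∀ e ∈ c.edges, e ∈ (H568R3.wg c).edgeSet := by
        intro e he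
        induction e with
        | h x y =>
          rw [mem_edgeSet, hadj]
          exact he
      have hx : x ∈ (c.transfer (H568R3.wg c) hE).support := by
        rw [Walk.support_transfer]
        exact hc.mem_support x
      exact ((c.transfer (H568R3.wg c) hE).takeUntil x hx).reachable
    exact fun x y => (key x).symm.trans (key y)

open Classical in
/-- Inner graphs with a Hamilton decomposition. -/
theorem ham_la {V : Type} [Finite V] [Nonempty V] (G : SimpleGraph V) (r m d t : ℕ)
    (hr : 0 < r) (hm : 0 < m) (hreg : ∀ v, (G.neighborSet v).ncard = r)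
    (hpar : Even r ∨ Even m)
    (hcyc : ∀ (v : V) (c : G.Walk v v), c.IsCycle → 2 * d < c.length)
    (H : V → SimpleGraph (Fin m)) (hH : ∀ v y, ((H v).neighborSet y).ncard = 2 * t)
    (hham : ∀ v, ∃ (a : Fin t → Fin m) (c : ∀ i, (H v).Walk (a i) (a i)),
      (∀ i, (c i).IsHamiltonianCycle) ∧ ∀ e ∈ (H v).edgeSet, ∃ i, e ∈ (c i).edges)
    (hload : (2 * t : ℝ) / m +
      (r : ℝ) / moore (if Even r then min (2 * m) r else min m r) d ≤ 1) :
    la (subst G H) = (r * m + 2 * t + 2) / 2 := by
  choose a c hc1 hc2 using hham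
  have hsup : ∀ v, (⨆ i, H568R3.wg (c v i)) = H v := by
    intro v
    ext x y
    rw [iSup_adj]
    constructor
    · rintro ⟨i, hi⟩
      have hi' : (SimpleGraph.fromEdgeSet {e | e ∈ (c v i).edges}).Adj x y := hi
      rw [SimpleGraph.fromEdgeSet_adj] at hi'
      exact (c v i).adj_of_mem_edges hi'.1
    · intro h
      obtain ⟨i, hi⟩ := hc2 v s(x, y) h
      refine ⟨i, ?_⟩
      show (SimpleGraph.fromEdgeSet {e | e ∈ (c v i).edges}).Adj x y
      rw [SimpleGraph.fromEdgeSet_adj]
      exact ⟨hi, h.ne⟩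
  have h1 := subst_la G r m d t hr hm hreg hpar hcyc (fun v i => H568R3.wg (c v i))
    (fun v i => (ham_graph (c v i) (hc1 v i)).1)
    (fun v y => by rw [hsup v]; exact hH v y) (fun v y => by
      refine le_trans (add_le_add_left (le_of_eq ?_) _) hload
      have h2 : ∀ i, {z | (H568R3.wg (c v i)).Reachable y z}.ncard = m := by
        intro i
        have : {z | (H568R3.wg (c v i)).Reachable y z} = Set.univ := by
          ext z
          simp [(ham_graph (c v i) (hc1 v i)).2 y z]
        rw [this, Set.ncard_univ, Nat.card_eq_fintype_card, Fintype.card_fin]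
      simp only [h2]
      rw [sum_const, card_univ, Fintype.card_fin, nsmul_eq_mul]
      ring)
  rw [← h1]
  congr 1
  congr 1
  funext v
  exact (hsup v).symm

open Classical in
/-- Complete inner graphs of odd order. -/
theorem complete_la {V : Type} [Finite V] [Nonempty V] (G : SimpleGraph V) (r m d : ℕ)
    (hr : 0 < r) (hm3 : 3 ≤ m) (hmo : Odd m) (hreg : ∀ v, (G.neighborSet v).ncard = r)
    (hpar : Even r)
    (hcyc : ∀ (v : V) (c : G.Walk v v), c.IsCycle → 2 * d < c.length)
    (hload : r * m ≤ moore (min (2 * m) r) d) :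
    (∀ x, ((subst G (fun _ => (⊤ : SimpleGraph (Fin m)))).neighborSet x).ncard =
      r * m + (m - 1)) ∧
    la (subst G (fun _ => (⊤ : SimpleGraph (Fin m)))) = (r * m + (m - 1) + 2) / 2 := by
  obtain ⟨t, ht⟩ := hmo
  have hdeg : ∀ y : Fin m, ((⊤ : SimpleGraph (Fin m)).neighborSet y).ncard = m - 1 := by
    intro y
    have : (⊤ : SimpleGraph (Fin m)).neighborSet y = {y}ᶜ := by
      ext z
      simp [eq_comm]
    rw [this, Set.ncard_compl, Set.ncard_singleton, Nat.card_eq_fintype_card, Fintype.card_fin]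
  have h2t : m - 1 = 2 * t := by omega
  refine ⟨fun x => subst_deg G r (m - 1) m hreg _ (fun _ y => hdeg y) x, ?_⟩
  obtain ⟨a, c, hc1, hc2⟩ := Pool.Agent.Y996.RK.walecki (d := t) (V := Fin m) (by omega)
    (by rw [Fintype.card_fin]; omega)
  rw [h2t]
  refine ham_la G r m d t hr (by omega) hreg (Or.inl hpar) hcyc (fun _ => ⊤)
    (fun _ y => by rw [hdeg y, h2t]) (fun _ => ⟨a, c, hc1, fun e he => (hc2 e he).exists⟩) ?_
  rw [if_pos hpar]
  have hmR : (0 : ℝ) < m := by exact_mod_cast (by omega : 0 < m)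
  have hMR : (0 : ℝ) < moore (min (2 * m) r) d := by exact_mod_cast moore_pos _ _
  have h3 : (m : ℝ) = 2 * t + 1 := by exact_mod_cast ht
  have h4 : ((r * m : ℕ) : ℝ) ≤ moore (min (2 * m) r) d := by exact_mod_cast hload
  push_cast at h4
  have h5 : (r : ℝ) / moore (min (2 * m) r) d ≤ 1 / m := by
    rw [div_le_div_iff₀ hMR hmR]
    linarith
  have h6 : (2 * t : ℝ) / m = 1 - 1 / m := by
    rw [h3]
    rw [h3] at hmR
    field_simp
    ring
  linarith

open Classical in
/-- Cycles as inner graphs. -/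
theorem cycle_la {V : Type} [Finite V] [Nonempty V] (G : SimpleGraph V) (r m : ℕ)
    (hr : 0 < r) (hm : 2 * r + 2 ≤ m) (hreg : ∀ v, (G.neighborSet v).ncard = r)
    (hpar : Even r ∨ Even m) :
    (∀ x, ((subst G (fun _ => cycleGraph m)).neighborSet x).ncard = r * m + 2) ∧
    la (subst G (fun _ => cycleGraph m)) = (r * m + 4) / 2 := by
  obtain ⟨k, rfl⟩ : ∃ k, m = k + 3 := ⟨m - 3, by omega⟩
  have hdeg : ∀ y : Fin (k + 3), ((cycleGraph (k + 3)).neighborSet y).ncard = 2 := by
    intro y
    rw [Set.ncard_eq_toFinset_card', Set.toFinset_card, card_neighborSet_eq_degree]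
    exact cycleGraph_degree_three_le
  refine ⟨fun x => subst_deg G r 2 _ hreg _ (fun _ y => hdeg y) x, ?_⟩
  have h1 := subst_la G r (k + 3) 1 1 hr (by omega) hreg hpar
    (fun v c hc => by have := hc.three_le_length; omega)
    (fun _ _ => cycleGraph (k + 3)) (fun _ _ y => hdeg y)
    (fun _ y => by rw [ciSup_const]; exact hdeg y) (fun _ y => by
      have h2 : {z | (cycleGraph (k + 3)).Reachable y z}.ncard = k + 3 := by
        have : {z | (cycleGraph (k + 3)).Reachable y z} = Set.univ := by
          ext z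
          simp [(cycleGraph_connected (n := k + 2)).preconnected y z]
        rw [this, Set.ncard_univ, Nat.card_eq_fintype_card, Fintype.card_fin]
      have h3 : (if Even r then min (2 * (k + 3)) r else min (k + 3) r) = r := by
        split_ifs <;> omega
      rw [h3, moore_one, Fin.sum_univ_one, h2]
      have hrR : (0 : ℝ) < r := by exact_mod_cast hr
      have h4 : (2 * r + 2 : ℝ) ≤ ((k + 3 : ℕ) : ℝ) := by exact_mod_cast hm
      have h5 : (2 : ℝ) / ((k + 3 : ℕ) : ℝ) ≤ 1 / (r + 1) := by
        rw [div_le_div_iff₀ (by linarith) (by linarith)]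
        linarith
      have h6 : (r : ℝ) / ((1 + r : ℕ) : ℝ) = 1 - 1 / (r + 1) := by
        push_cast
        field_simp
        ring
      linarith)
  have h7 : (fun _ : V => ⨆ _ : Fin 1, cycleGraph (k + 3)) = fun _ => cycleGraph (k + 3) := by
    funext v
    rw [ciSup_const]
  rw [h7] at h1
  rw [h1]

end Pool.Agent.Q264.LAL
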