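import Pool.Agent.Q251.LA.Col
import Pool.Agent.Q98.LA.Fib

/-!
# Linear arboricity: graphs put into the vertices of a blow-up
-/

set_option autoImplicit false

namespace Pool.Agent.Q264.LAL

open SimpleGraph H931R3.LA Finset Pool.Agent.W111.LAR

/-- The number `1 + δ (1 + (δ - 1) + ⋯ + (δ - 1)^(d - 1))` of the Moore bound. -/
def moore (δ d : ℕ) : ℕ := 1 + δ * ∑ i ∈ range d, (δ - 1) ^ i

theorem moore_pos (δ d : ℕ) : 0 < moore δ d := by unfold moore; omega

theorem moore_one (δ : ℕ) : moore δ 1 = 1 + δ := by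
  simp [moore]

open Classical in
theorem long {V : Type} [Finite V] (G : SimpleGraph V) (r m d : ℕ) (hr : 0 < r) (hm : 0 < m)
    (hreg : ∀ v, (G.neighborSet v).ncard = r) (hpar : Even r ∨ Even m)
    (hcyc : ∀ (v : V) (c : G.Walk v v), c.IsCycle → 2 * d < c.length) :
    Pool.Agent.Y423.LA.Long (Pool.Agent.Q251.LA.blow G m) (r * m / 2)
      (moore (if Even r then min (2 * m) r else min m r) d * m) := by
  have := Fintype.ofFinite V
  have hm0 : NeZero m := ⟨by omega⟩
  by_cases he : Even r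
  · rw [if_pos he]
    obtain ⟨k, hk⟩ := he
    have hk0 : NeZero k := ⟨by omega⟩
    obtain ⟨f, hf1, hf2⟩ := Pool.Agent.Q251.LA.col_even G k (fun v => by rw [hreg v]; omega)
    obtain ⟨H, h1, h2, -, h3⟩ := Pool.Agent.Q251.LA.fac (m := m) (n := m)
      (by rw [Fintype.card_unit, one_mul]) f hf1 hf2 (min (2 * m) r) d
      (by rw [Fintype.card_unit, mul_one]; omega) hcyc
    refine ⟨ZMod k × Fin m, inferInstance, H, ?_, h1, h3, h2⟩
    rw [Fintype.card_prod, ZMod.card, Fintype.card_fin, hk]
    have : (k + k) * m = k * m * 2 := by ring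
    rw [this, Nat.mul_div_cancel _ (by norm_num)]
  · rw [if_neg he]
    have hme : Even m := hpar.resolve_left he
    obtain ⟨n, hn⟩ := hme
    have hn0 : NeZero n := ⟨by omega⟩
    have hr0 : NeZero r := ⟨by omega⟩
    obtain ⟨f, hf1, hf2⟩ := Pool.Agent.Q251.LA.col_dbl G r hreg
    obtain ⟨H, h1, h2, -, h3⟩ := Pool.Agent.Q251.LA.fac (m := m) (n := n)
      (by rw [Fintype.card_bool]; omega) f hf1 hf2 (min m r) d
      (by rw [Fintype.card_bool]; omega) hcyc
    refine ⟨ZMod r × Fin n, inferInstance, H, ?_, h1, h3, h2⟩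
    rw [Fintype.card_prod, ZMod.card, Fintype.card_fin, hn]
    have : r * (n + n) = r * n * 2 := by ring
    rw [this, Nat.mul_div_cancel _ (by norm_num)]

open Classical in
/-- The cover of the blow-up together with further graphs of degree two. -/
theorem cov_union {V : Type} [Finite V] (G : SimpleGraph V) (r m d t : ℕ) (hr : 0 < r)
    (hm : 0 < m) (hreg : ∀ v, (G.neighborSet v).ncard = r) (hpar : Even r ∨ Even m)
    (hcyc : ∀ (v : V) (c : G.Walk v v), c.IsCycle → 2 * d < c.length)
    (K : Fin t → SimpleGraph (V × Fin m)) (hK : ∀ i x, ((K i).neighborSet x).ncard = 2)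
    (hload : ∀ x, ∑ i, (2 : ℝ) / csize (K i) x +
      (r : ℝ) / moore (if Even r then min (2 * m) r else min m r) d ≤ 1) :
    Cov (G.comap Prod.fst ⊔ ⨆ i, K i) (r * m / 2 + t + 1) := by
  obtain ⟨κ, _, H, h1, h2, h3, h4⟩ := long G r m d hr hm hreg hpar hcyc
  set M := moore (if Even r then min (2 * m) r else min m r) d with hMdef
  have hMpos : 0 < M := moore_pos _ _
  have hcard : Fintype.card (κ ⊕ Fin t) = r * m / 2 + t := by
    rw [Fintype.card_sum, h1, Fintype.card_fin]
  rw [← hcard]
  refine Pool.Agent.Q98.LA.cov_fib (Sum.elim H K) ?_ ?_ _ id ?_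
  · rintro (i | i) v
    · exact (h2 i v).le
    · exact (hK i v).le
  · intro v
    have hmR : (0 : ℝ) < m := by exact_mod_cast hm
    have hMR : (0 : ℝ) < M := by exact_mod_cast hMpos
    refine le_trans (sum_le_sum (g := Sum.elim (fun _ : κ => (2 : ℝ) / (M * m))
      (fun i => (2 : ℝ) / csize (K i) v)) ?_) ?_
    · rintro (i | i) _
      · by_cases hc : Cyc (Sum.elim H K (Sum.inl i)) v
        · rw [if_pos hc]
          have := h3 i v
          exact div_le_div_of_nonneg_left (by norm_num : (0 : ℝ) ≤ 2)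
            (by positivity : (0 : ℝ) < M * m) (by exact_mod_cast this)
        · rw [if_neg hc]
          show (0 : ℝ) ≤ (2 : ℝ) / (M * m)
          positivity
      · by_cases hc : Cyc (Sum.elim H K (Sum.inr i)) v
        · rw [if_pos hc]
          exact le_rfl
        · rw [if_neg hc]
          show (0 : ℝ) ≤ (2 : ℝ) / csize (K i) v
          positivity
    · rw [Fintype.sum_sum_type]
      simp only [Sum.elim_inl, Sum.elim_inr]
      have e1 : ∑ _i : κ, (2 : ℝ) / (M * m) ≤ r / M := by
        calc ∑ _i : κ, (2 : ℝ) / (M * m) = (Fintype.card κ : ℝ) * (2 / (M * m)) := by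
              rw [sum_const, card_univ, nsmul_eq_mul]
          _ ≤ ((r : ℝ) * m / 2) * (2 / (M * m)) := by
              refine mul_le_mul_of_nonneg_right ?_ (by positivity)
              rw [h1]
              have : ((r * m / 2 : ℕ) : ℝ) ≤ ((r * m : ℕ) : ℝ) / 2 := Nat.cast_div_le
              push_cast at this
              exact this
          _ = r / M := by field_simp
      linarith [hload v]
  · intro u j
    simp only [id]
    by_cases h : (G.comap Prod.fst ⊔ ⨆ i, K i).Adj u j
    · have h5 : {v | (G.comap Prod.fst ⊔ ⨆ i, K i).Adj u v ∧ v = j} = {j} := by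
        ext v
        simp only [Set.mem_ofPred_eq, Set.mem_singleton_iff]
        exact ⟨fun h => h.2, fun h' => ⟨h' ▸ h, h'⟩⟩
      rw [h5, Set.ncard_singleton, Nat.one_le_iff_ne_zero, Ne, Set.ncard_eq_zero]
      rw [← Ne, ← Set.nonempty_iff_ne_empty]
      rw [sup_adj] at h
      rcases h with h | h
      · have h6 : (⨆ i, H i).Adj u j := by rw [h4]; exact h
        rw [iSup_adj] at h6
        obtain ⟨i, hi⟩ := h6
        exact ⟨Sum.inl i, hi⟩
      · rw [iSup_adj] at h
        obtain ⟨i, hi⟩ := h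
        exact ⟨Sum.inr i, hi⟩
    · have h5 : {v | (G.comap Prod.fst ⊔ ⨆ i, K i).Adj u v ∧ v = j} = ∅ := by
        ext v
        simp only [Set.mem_ofPred_eq, Set.mem_empty_iff_false, iff_false]
        rintro ⟨h6, rfl⟩
        exact h h6
      rw [h5, Set.ncard_empty]
      exact Nat.zero_le _

theorem blow_deg {V : Type} [Finite V] (G : SimpleGraph V) (r m : ℕ)
    (hreg : ∀ v, (G.neighborSet v).ncard = r) (x : V × Fin m) :
    ((G.comap (Prod.fst : V × Fin m → V)).neighborSet x).ncard = r * m := by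
  have h1 : (G.comap (Prod.fst : V × Fin m → V)).neighborSet x =
      G.neighborSet x.1 ×ˢ (Set.univ : Set (Fin m)) := by
    ext y
    simp
  rw [h1, Set.ncard_prod, hreg, Set.ncard_univ, Nat.card_eq_fintype_card, Fintype.card_fin]

/-- `G[H]`: the graph `H v` is put on the fibre of every vertex `v`, and the fibres of adjacent
vertices are completely joined. -/
def subst {V : Type} (G : SimpleGraph V) {m : ℕ} (H : V → SimpleGraph (Fin m)) :
    SimpleGraph (V × Fin m) where
  Adj x y := G.Adj x.1 y.1 ∨ (x.1 = y.1 ∧ (H x.1).Adj x.2 y.2)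
  symm := ⟨fun x y h => by
    rcases h with h | ⟨h, h'⟩
    · exact Or.inl h.symm
    · exact Or.inr ⟨h.symm, h ▸ h'.symm⟩⟩
  loopless := ⟨fun x h => by
    rcases h with h | ⟨_, h⟩
    · exact G.loopless.irrefl _ h
    · exact (H x.1).loopless.irrefl _ h⟩

/-- The graphs `F v` on the fibres, as a graph on all vertices. -/
def fibre {V : Type} {m : ℕ} (F : V → SimpleGraph (Fin m)) : SimpleGraph (V × Fin m) where
  Adj x y := x.1 = y.1 ∧ (F x.1).Adj x.2 y.2
  symm := ⟨fun _ _ h => ⟨h.1.symm, h.1 ▸ h.2.symm⟩⟩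
  loopless := ⟨fun x h => (F x.1).loopless.irrefl _ h.2⟩

theorem fibre_deg {V : Type} {m : ℕ} (F : V → SimpleGraph (Fin m)) (x : V × Fin m) :
    ((fibre F).neighborSet x).ncard = ((F x.1).neighborSet x.2).ncard := by
  have : (fibre F).neighborSet x = (fun z => (x.1, z)) '' (F x.1).neighborSet x.2 := by
    ext ⟨v, z⟩
    simp only [fibre, mem_neighborSet, Set.mem_image, Prod.mk.injEq]
    constructor
    · rintro ⟨h, h'⟩
      exact ⟨z, h', h, rfl⟩
    · rintro ⟨z', h', h, rfl⟩
      exact ⟨h, h'⟩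
  rw [this, Set.ncard_image_of_injective _ (fun a b h => (Prod.ext_iff.1 h).2)]

theorem fibre_size {V : Type} [Finite V] {m : ℕ} (F : V → SimpleGraph (Fin m)) (x : V × Fin m) :
    {z | (F x.1).Reachable x.2 z}.ncard ≤ csize (fibre F) x := by
  unfold csize
  rw [← Set.ncard_image_of_injective {z | (F x.1).Reachable x.2 z}
    (f := fun z => (x.1, z)) (fun a b h => (Prod.ext_iff.1 h).2)]
  refine Set.ncard_le_ncard ?_ (Set.toFinite _)
  rintro _ ⟨z, hz, rfl⟩
  let φ : F x.1 →g fibre F := ⟨fun z => (x.1, z), fun h => ⟨rfl, h⟩⟩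
  exact hz.map φ

theorem subst_eq {V : Type} (G : SimpleGraph V) {m t : ℕ} (F : V → Fin t → SimpleGraph (Fin m)) :
    subst G (fun v => ⨆ i, F v i) = G.comap Prod.fst ⊔ ⨆ i, fibre (fun v => F v i) := by
  ext x y
  simp only [subst, fibre, sup_adj, iSup_adj, comap_adj]
  constructor
  · rintro (h | ⟨h, i, hi⟩)
    · exact Or.inl h
    · exact Or.inr ⟨i, h, hi⟩
  · rintro (h | ⟨i, h, hi⟩)
    · exact Or.inl h
    · exact Or.inr ⟨h, i, hi⟩

theorem subst_deg {V : Type} [Finite V] (G : SimpleGraph V) (r s m : ℕ)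
    (hreg : ∀ v, (G.neighborSet v).ncard = r) (H : V → SimpleGraph (Fin m))
    (hH : ∀ v y, ((H v).neighborSet y).ncard = s) (x : V × Fin m) :
    ((subst G H).neighborSet x).ncard = r * m + s := by
  have h1 : (subst G H).neighborSet x =
      (G.comap (Prod.fst : V × Fin m → V)).neighborSet x ∪ (fibre H).neighborSet x := by
    ext y
    simp [subst, fibre]
  rw [h1, Set.ncard_union_eq ?_ (Set.toFinite _) (Set.toFinite _), blow_deg G r m hreg,
    fibre_deg, hH]
  rw [Set.disjoint_left]
  rintro y h2 ⟨h3, _⟩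
  have h4 : G.Adj x.1 y.1 := h2
  rw [h3] at h4
  exact G.loopless.irrefl _ h4

open Classical in
theorem subst_la {V : Type} [Finite V] [Nonempty V] (G : SimpleGraph V) (r m d t : ℕ)
    (hr : 0 < r) (hm : 0 < m) (hreg : ∀ v, (G.neighborSet v).ncard = r)
    (hpar : Even r ∨ Even m)
    (hcyc : ∀ (v : V) (c : G.Walk v v), c.IsCycle → 2 * d < c.length)
    (F : V → Fin t → SimpleGraph (Fin m))
    (hF : ∀ v i y, ((F v i).neighborSet y).ncard = 2)
    (hF' : ∀ v y, ((⨆ i, F v i).neighborSet y).ncard = 2 * t)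
    (hload : ∀ v y, ∑ i, (2 : ℝ) / {z | (F v i).Reachable y z}.ncard +
      (r : ℝ) / moore (if Even r then min (2 * m) r else min m r) d ≤ 1) :
    la (subst G (fun v => ⨆ i, F v i)) = (r * m + 2 * t + 2) / 2 := by
  have h1 := cov_union G r m d t hr hm hreg hpar hcyc (fun i => fibre (fun v => F v i))
    (fun i x => by rw [fibre_deg]; exact hF _ _ _) (fun x => by
      refine le_trans (add_le_add_left (sum_le_sum fun i _ => ?_) _) (hload x.1 x.2)
      have h2 := fibre_size (fun v => F v i) x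
      have h3 : 0 < {z | (F x.1 i).Reachable x.2 z}.ncard :=
        (Set.ncard_pos (Set.toFinite _)).2 ⟨x.2, Reachable.refl _⟩
      refine div_le_div_of_nonneg_left (by norm_num) (by exact_mod_cast h3) ?_
      exact_mod_cast h2)
  rw [← subst_eq] at h1
  have hne : Nonempty (V × Fin m) := ⟨(Classical.arbitrary V, ⟨0, hm⟩)⟩
  have he : Even (r * m) := by
    rcases hpar with h | h
    · exact h.mul_right m
    · exact h.mul_left r
  obtain ⟨N, hN⟩ := he
  have hrm : 0 < r * m := Nat.mul_pos hr hm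
  have h2 := (Pool.Agent.Q98.LA.la_fib h1).2 hne (by omega) (fun x => by
    rw [subst_deg G r (2 * t) m hreg _ hF' x]; omega)
  rw [h2]
  omega

end Pool.Agent.Q264.LAL
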